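import Pool.Agent.Q289.BG.Stm

/-!
Job SOL of project BG (helper289): the body `Up G` is solid.
-/

set_option autoImplicit false

namespace Pool.Agent.Q221.BG

open MeasureTheory Set
open scoped ENNReal InnerProductSpace
open Pool.Agent.W695.KH (Eu EV VV)
open Q289.BG

variable {ι : Type} [Fintype ι]

theorem cont (i : ι) : Continuous fun y : Eu ι => y i := by fun_prop

theorem sol_up (G : SimpleGraph ι) : Sol (Up G) where
  comp := by
    have hcl : IsClosed (Up G) := by
      have h1 : Up G = (⋂ i, {y : Eu ι | y i ∈ Icc (0 : ℝ) 1}) ∩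
          ⋂ i, ⋂ j, ⋂ _ : G.Adj i j, {y : Eu ι | y i + y j ≤ 1} := by
        ext y
        simp only [Up, mem_ofPred_eq, mem_inter_iff, mem_iInter]
      rw [h1]
      refine IsClosed.inter (isClosed_iInter fun i => isClosed_Icc.preimage (cont i)) ?_
      exact isClosed_iInter fun i => isClosed_iInter fun j => isClosed_iInter fun _ =>
        isClosed_le ((cont i).add (cont j)) continuous_const
    refine Metric.isCompact_of_isClosed_isBounded hcl ?_
    refine (Metric.isBounded_closedBall (x := (0 : Eu ι)) (r := Real.sqrt (Fintype.card ι))).subset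
      fun y hy => ?_
    rw [mem_closedBall_zero_iff, EuclideanSpace.norm_eq]
    refine Real.sqrt_le_sqrt ?_
    calc ∑ i, ‖y i‖ ^ 2 ≤ ∑ _i : ι, (1 : ℝ) := Finset.sum_le_sum fun i _ => by
          have h1 := hy.1 i
          rw [Real.norm_eq_abs, sq_abs]
          nlinarith [h1.1, h1.2]
      _ = Fintype.card ι := by simp
  pos := by
    have hop : IsOpen {y : Eu ι | ∀ i, y i ∈ Ioo (0 : ℝ) (1 / 2)} := by
      have h1 : {y : Eu ι | ∀ i, y i ∈ Ioo (0 : ℝ) (1 / 2)} =
          ⋂ i, {y : Eu ι | y i ∈ Ioo (0 : ℝ) (1 / 2)} := by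
        ext y
        simp only [mem_ofPred_eq, mem_iInter]
      rw [h1]
      exact isOpen_iInter_of_finite fun i => isOpen_Ioo.preimage (cont i)
    have hne : ({y : Eu ι | ∀ i, y i ∈ Ioo (0 : ℝ) (1 / 2)}).Nonempty :=
      ⟨WithLp.toLp 2 fun _ => 1 / 4, fun i => by
        show (1 / 4 : ℝ) ∈ Ioo (0 : ℝ) (1 / 2)
        constructor <;> norm_num⟩
    refine lt_of_lt_of_le (hop.measure_pos volume hne)
      (measure_mono fun y hy => ⟨fun i => ?_, fun i j _ => ?_⟩)
    · exact ⟨(hy i).1.le, (hy i).2.le.trans (by norm_num)⟩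
    · have h1 := (hy i).2
      have h2 := (hy j).2
      linarith
  cube := fun y hy => hy.1
  down := fun y hy z hz => ⟨fun i => ⟨(hz i).1, (hz i).2.trans (hy.1 i).2⟩, fun i j hij => by
    have h1 := hy.2 i j hij
    have h2 := (hz i).2
    have h3 := (hz j).2
    linarith⟩

theorem sol : S_SOL := fun _ _ G => sol_up G

end Pool.Agent.Q221.BG
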